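import Mathlib

set_option autoImplicit false

namespace Run7.h439.Lac

open MeasureTheory Filter Topology

/-! ## Orthogonality of cosines and Bessel's inequality -/

theorem int_cos_ne (k : ℤ) (hk : k ≠ 0) :
    ∫ x in (0 : ℝ)..(2 * Real.pi), Real.cos ((k : ℝ) * x) = 0 := by
  have hk' : (k : ℝ) ≠ 0 := by exact_mod_cast hk
  rw [intervalIntegral.integral_comp_mul_left (fun x => Real.cos x) hk', integral_cos]
  have h1 : Real.sin ((k : ℝ) * (2 * Real.pi)) = 0 := by
    have := Real.sin_int_mul_pi (2 * k)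
    rw [← this]
    congr 1
    push_cast
    ring
  rw [h1]
  simp

theorem orth (u w : ℕ) (h : u ≠ w) :
    ∫ x in Set.Icc (0 : ℝ) (2 * Real.pi), Real.cos ((u : ℝ) * x) * Real.cos ((w : ℝ) * x) = 0 := by
  rw [integral_Icc_eq_integral_Ioc, ← intervalIntegral.integral_of_le (by positivity)]
  have e : ∀ x : ℝ, Real.cos ((u : ℝ) * x) * Real.cos ((w : ℝ) * x) =
      (1 / 2) * Real.cos ((((u : ℤ) + w : ℤ) : ℝ) * x) +
        (1 / 2) * Real.cos ((((u : ℤ) - w : ℤ) : ℝ) * x) := by
    intro x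
    push_cast
    rw [add_mul, sub_mul, Real.cos_add, Real.cos_sub]
    ring
  simp only [e]
  have c1 : IntervalIntegrable (fun x : ℝ => (1 / 2) * Real.cos ((((u : ℤ) + w : ℤ) : ℝ) * x))
      volume 0 (2 * Real.pi) := (by fun_prop : Continuous _).intervalIntegrable _ _
  have c2 : IntervalIntegrable (fun x : ℝ => (1 / 2) * Real.cos ((((u : ℤ) - w : ℤ) : ℝ) * x))
      volume 0 (2 * Real.pi) := (by fun_prop : Continuous _).intervalIntegrable _ _
  rw [intervalIntegral.integral_add c1 c2, intervalIntegral.integral_const_mul,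
    intervalIntegral.integral_const_mul, int_cos_ne _ (by omega), int_cos_ne _ (by omega)]
  simp

theorem diag (u : ℕ) (h : u ≠ 0) :
    ∫ x in Set.Icc (0 : ℝ) (2 * Real.pi), Real.cos ((u : ℝ) * x) * Real.cos ((u : ℝ) * x)
      = Real.pi := by
  rw [integral_Icc_eq_integral_Ioc, ← intervalIntegral.integral_of_le (by positivity)]
  have e : ∀ x : ℝ, Real.cos ((u : ℝ) * x) * Real.cos ((u : ℝ) * x) =
      (1 / 2) + (1 / 2) * Real.cos ((((2 * u : ℕ) : ℤ) : ℝ) * x) := by
    intro x
    have : (((2 * u : ℕ) : ℤ) : ℝ) * x = 2 * ((u : ℝ) * x) := by push_cast; ring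
    rw [this, Real.cos_two_mul]
    ring
  simp only [e]
  have c1 : IntervalIntegrable (fun _ : ℝ => (1 / 2 : ℝ))
      volume 0 (2 * Real.pi) := (by fun_prop : Continuous _).intervalIntegrable _ _
  have c2 : IntervalIntegrable (fun x : ℝ => (1 / 2) * Real.cos ((((2 * u : ℕ) : ℤ) : ℝ) * x))
      volume 0 (2 * Real.pi) := (by fun_prop : Continuous _).intervalIntegrable _ _
  rw [intervalIntegral.integral_add c1 c2, intervalIntegral.integral_const_mul,
    int_cos_ne _ (by omega), intervalIntegral.integral_const]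
  simp
  ring

theorem orth_le (u w : ℕ) :
    ∫ x in Set.Icc (0 : ℝ) (2 * Real.pi), Real.cos ((u : ℝ) * x) * Real.cos ((w : ℝ) * x)
      ≤ if u = w then 2 * Real.pi else 0 := by
  split_ifs with h
  · subst h
    have h1 : ∫ x in Set.Icc (0 : ℝ) (2 * Real.pi),
        Real.cos ((u : ℝ) * x) * Real.cos ((u : ℝ) * x) ≤
        ∫ x in Set.Icc (0 : ℝ) (2 * Real.pi), (1 : ℝ) := by
      apply integral_mono
      · exact (by fun_prop : Continuous _).continuousOn.integrableOn_Icc
      · exact (by fun_prop : Continuous _).continuousOn.integrableOn_Icc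
      · intro x
        have := Real.cos_sq_le_one ((u : ℝ) * x)
        show _ * _ ≤ _
        nlinarith
    refine h1.trans (le_of_eq ?_)
    rw [setIntegral_const]
    simp [Real.pi_pos.le]
  · exact (orth u w h).le

/-- the cosine coefficient of the indicator function of `E` -/
noncomputable def c (E : Set ℝ) (v : ℕ) : ℝ := ∫ x in E, Real.cos ((v : ℝ) * x)

theorem intOn {E : Set ℝ} (hE : E ⊆ Set.Icc 0 (2 * Real.pi)) {f : ℝ → ℝ} (hf : Continuous f) :
    IntegrableOn f E volume :=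
  (hf.continuousOn.integrableOn_Icc).mono_set hE

theorem bessel_fin {E : Set ℝ} (hE : E ⊆ Set.Icc 0 (2 * Real.pi))
    (V : Finset ℕ) (hV : 0 ∉ V) : ∑ v ∈ V, c E v ^ 2 ≤ 2 * Real.pi ^ 2 := by
  set Q : ℝ := ∑ v ∈ V, c E v ^ 2 with hQ
  set g : ℝ → ℝ := fun x => ∑ v ∈ V, c E v * Real.cos ((v : ℝ) * x) with hg
  have hgc : Continuous g := by
    rw [hg]
    fun_prop
  have h1 : ∫ x in E, g x = Q := by
    rw [hg, integral_finsetSum]
    · rw [hQ]
      refine Finset.sum_congr rfl fun v _ => ?_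
      rw [integral_const_mul, sq]
      rfl
    · intro v _
      exact intOn hE (by fun_prop)
  have h2 : ∫ x in Set.Icc (0 : ℝ) (2 * Real.pi), g x ^ 2 = Real.pi * Q := by
    have e : ∀ x, g x ^ 2 = ∑ v ∈ V, ∑ w ∈ V, (c E v * c E w) *
        (Real.cos ((v : ℝ) * x) * Real.cos ((w : ℝ) * x)) := by
      intro x
      rw [sq, hg, Finset.sum_mul_sum]
      refine Finset.sum_congr rfl fun v _ => Finset.sum_congr rfl fun w _ => ?_
      ring
    simp only [e]
    rw [integral_finsetSum]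
    · rw [hQ, Finset.mul_sum]
      refine Finset.sum_congr rfl fun v hv => ?_
      rw [integral_finsetSum]
      · rw [Finset.sum_eq_single v]
        · rw [integral_const_mul, diag v (fun h => hV (h ▸ hv))]
          ring
        · intro w _ hw
          rw [integral_const_mul, orth v w (Ne.symm hw), mul_zero]
        · intro h
          exact absurd hv h
      · intro w _
        exact intOn le_rfl (by fun_prop)
    · intro v _
      exact intOn le_rfl (by fun_prop)
  have h3 : ∫ x in E, g x ≤ ∫ x in E, (g x ^ 2 / (2 * Real.pi) + Real.pi / 2) := by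
    apply integral_mono
    · exact intOn hE hgc
    · exact intOn hE (by fun_prop)
    · intro x
      have hp := Real.pi_pos
      show g x ≤ g x ^ 2 / (2 * Real.pi) + Real.pi / 2
      rw [← sub_nonneg]
      have : g x ^ 2 / (2 * Real.pi) + Real.pi / 2 - g x = (g x - Real.pi) ^ 2 / (2 * Real.pi) := by
        field_simp
        ring
      rw [this]
      positivity
  have h4 : ∫ x in E, (g x ^ 2 / (2 * Real.pi) + Real.pi / 2) ≤
      ∫ x in Set.Icc (0 : ℝ) (2 * Real.pi), (g x ^ 2 / (2 * Real.pi) + Real.pi / 2) := by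
    apply setIntegral_mono_set
    · exact intOn le_rfl (by fun_prop)
    · exact ae_of_all _ fun x => by
        have hp := Real.pi_pos
        show (0 : ℝ) ≤ g x ^ 2 / (2 * Real.pi) + Real.pi / 2
        positivity
    · exact hE.eventuallyLE
  have h5 : ∫ x in Set.Icc (0 : ℝ) (2 * Real.pi), (g x ^ 2 / (2 * Real.pi) + Real.pi / 2) =
      Q / 2 + Real.pi ^ 2 := by
    rw [integral_add, integral_div, h2, setIntegral_const]
    · have hp := Real.pi_pos
      simp [Real.pi_pos.le]
      field_simp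
    · exact intOn le_rfl (by fun_prop)
    · exact intOn le_rfl (by fun_prop)
  have h6 : Q ≤ Q / 2 + Real.pi ^ 2 := by
    calc Q = ∫ x in E, g x := h1.symm
      _ ≤ _ := h3
      _ ≤ _ := h4
      _ = _ := h5
  linarith

theorem bessel {E : Set ℝ} (hE : E ⊆ Set.Icc 0 (2 * Real.pi)) :
    Summable fun v : ℕ => c E v ^ 2 := by
  refine summable_of_sum_le (c := 2 * Real.pi ^ 2 + c E 0 ^ 2) (fun v => sq_nonneg _) ?_
  intro V
  have h1 := bessel_fin hE (V.erase 0) (by simp)
  by_cases h0 : 0 ∈ V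
  · rw [← Finset.add_sum_erase _ _ h0]
    linarith
  · rw [Finset.erase_eq_of_notMem h0] at h1
    have := sq_nonneg (c E 0)
    linarith

/-! ## Averages of square summable families -/

theorem avg2 (b : ℕ × ℕ → ℝ) (hs : Summable fun p => b p ^ 2) {δ : ℝ}
    (hδ : 0 < δ) : ∀ᶠ m : ℕ in atTop,
      ∑ p ∈ Finset.range m ×ˢ Finset.range m, |b p| ≤ δ * m := by
  classical
  obtain ⟨s, hs'⟩ := summable_iff_vanishing_norm.1 hs ((δ / 2) ^ 2) (by positivity)
  set B : ℝ := ∑ p ∈ s, |b p| with hB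
  obtain ⟨N, hN⟩ := exists_nat_gt (2 * B / δ)
  filter_upwards [eventually_ge_atTop N] with m hm
  set P := Finset.range m ×ˢ Finset.range m with hP
  have hcard : ((P.card : ℕ) : ℝ) = (m : ℝ) ^ 2 := by
    rw [hP, Finset.card_product, Finset.card_range]
    push_cast
    ring
  have h1 : ∑ p ∈ P, |b p| ≤ B + ∑ p ∈ P \ s, |b p| := by
    rw [← Finset.sum_inter_add_sum_sdiff P s]
    refine add_le_add ?_ le_rfl
    exact Finset.sum_le_sum_of_subset_of_nonneg Finset.inter_subset_right
      fun _ _ _ => abs_nonneg _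
  have h2 : (∑ p ∈ P \ s, |b p|) ^ 2 ≤ (δ / 2 * m) ^ 2 := by
    refine (sq_sum_le_card_mul_sum_sq).trans ?_
    have h3 := hs' (P \ s) Finset.sdiff_disjoint
    rw [Real.norm_eq_abs, abs_of_nonneg (Finset.sum_nonneg fun _ _ => sq_nonneg _)] at h3
    simp only [sq_abs]
    have h4 : (((P \ s).card : ℕ) : ℝ) ≤ (m : ℝ) ^ 2 := by
      rw [← hcard]
      exact_mod_cast Finset.card_le_card Finset.sdiff_subset
    calc (((P \ s).card : ℕ) : ℝ) * ∑ p ∈ P \ s, b p ^ 2 ≤ (m : ℝ) ^ 2 * (δ / 2) ^ 2 := by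
          apply mul_le_mul h4 h3.le (Finset.sum_nonneg fun _ _ => sq_nonneg _) (by positivity)
      _ = (δ / 2 * m) ^ 2 := by ring
  have h5 : ∑ p ∈ P \ s, |b p| ≤ δ / 2 * m := by
    refine (abs_le_of_sq_le_sq' h2 (by positivity)).2
  have h6 : B ≤ δ / 2 * m := by
    have : 2 * B / δ < m := hN.trans_le (by exact_mod_cast hm)
    rw [div_lt_iff₀ hδ] at this
    linarith
  linarith

theorem avg1 (b : ℕ → ℝ) (hs : Summable fun p => b p ^ 2) {δ : ℝ}
    (hδ : 0 < δ) : ∀ᶠ m : ℕ in atTop,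
      ∑ p ∈ Finset.range m, |b p| ≤ δ * √m := by
  classical
  obtain ⟨s, hs'⟩ := summable_iff_vanishing_norm.1 hs ((δ / 2) ^ 2) (by positivity)
  set B : ℝ := ∑ p ∈ s, |b p| with hB
  obtain ⟨N, hN⟩ := exists_nat_gt ((2 * B / δ) ^ 2)
  filter_upwards [eventually_ge_atTop N] with m hm
  set P := Finset.range m with hP
  have h1 : ∑ p ∈ P, |b p| ≤ B + ∑ p ∈ P \ s, |b p| := by
    rw [← Finset.sum_inter_add_sum_sdiff P s]
    refine add_le_add ?_ le_rfl
    exact Finset.sum_le_sum_of_subset_of_nonneg Finset.inter_subset_right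
      fun _ _ _ => abs_nonneg _
  have h2 : (∑ p ∈ P \ s, |b p|) ^ 2 ≤ (δ / 2 * √m) ^ 2 := by
    refine (sq_sum_le_card_mul_sum_sq).trans ?_
    have h3 := hs' (P \ s) Finset.sdiff_disjoint
    rw [Real.norm_eq_abs, abs_of_nonneg (Finset.sum_nonneg fun _ _ => sq_nonneg _)] at h3
    simp only [sq_abs]
    have h4 : (((P \ s).card : ℕ) : ℝ) ≤ (m : ℝ) := by
      have := Finset.card_le_card (Finset.sdiff_subset (s := P) (t := s))
      rw [hP, Finset.card_range] at this
      exact_mod_cast this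
    calc (((P \ s).card : ℕ) : ℝ) * ∑ p ∈ P \ s, b p ^ 2 ≤ (m : ℝ) * (δ / 2) ^ 2 := by
          apply mul_le_mul h4 h3.le (Finset.sum_nonneg fun _ _ => sq_nonneg _) (by positivity)
      _ = (δ / 2 * √m) ^ 2 := by
          rw [mul_pow, Real.sq_sqrt (by positivity)]
          ring
  have h5 : ∑ p ∈ P \ s, |b p| ≤ δ / 2 * √m := by
    refine (abs_le_of_sq_le_sq' h2 (by positivity)).2
  have h6 : B ≤ δ / 2 * √m := by
    have h7 : (2 * B / δ) ^ 2 ≤ m := (hN.trans_le (by exact_mod_cast hm)).le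
    have h8 : 2 * B / δ ≤ √m := Real.le_sqrt_of_sq_le h7
    rw [div_le_iff₀ hδ] at h8
    linarith
  linarith

/-! ## Bounded fibres -/

theorem summable_fibre {P : Type} [DecidableEq P] (φ : P → ℕ) (R : ℕ) (T : Set ℕ)
    (hR : ∀ v ∈ T, ∀ s : Finset P, (∀ p ∈ s, φ p = v) → s.card ≤ R)
    (g : ℕ → ℝ) (hg : ∀ v, 0 ≤ g v) (hs : Summable g) (h0 : ∀ v, v ∉ T → g v = 0) :
    Summable fun p => g (φ p) := by
  classical
  refine summable_of_sum_le (c := R * ∑' v, g v) (fun p => hg _) ?_
  intro s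
  rw [← Finset.sum_fiberwise_of_maps_to (t := s.image φ) (g := φ)
    (fun p hp => Finset.mem_image_of_mem φ hp)]
  calc ∑ v ∈ s.image φ, ∑ p ∈ s with φ p = v, g (φ p)
      = ∑ v ∈ s.image φ, ((s.filter fun p => φ p = v).card : ℝ) * g v := by
        refine Finset.sum_congr rfl fun v _ => ?_
        rw [← nsmul_eq_mul, ← Finset.sum_const]
        refine Finset.sum_congr rfl fun p hp => ?_
        rw [(Finset.mem_filter.1 hp).2]
    _ ≤ ∑ v ∈ s.image φ, (R : ℝ) * g v := by
        refine Finset.sum_le_sum fun v _ => ?_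
        by_cases hv : v ∈ T
        · refine mul_le_mul_of_nonneg_right ?_ (hg v)
          exact_mod_cast hR v hv _ fun p hp => (Finset.mem_filter.1 hp).2
        · rw [h0 v hv]
          simp
    _ = R * ∑ v ∈ s.image φ, g v := by rw [Finset.mul_sum]
    _ ≤ R * ∑' v, g v := by
        refine mul_le_mul_of_nonneg_left ?_ (by positivity)
        exact hs.sum_le_tsum _ fun v _ => hg v

end Run7.h439.Lac
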