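import Pool.Agent.Run7.h439.Lac1

set_option autoImplicit false

namespace Run7.h439.Lac

open MeasureTheory Filter Topology

/-! ## Lacunary sequences -/

/-- Hadamard gap sequences -/
structure Gap (n : ℕ → ℕ) (q : ℝ) : Prop where
  one_lt : 1 < q
  pos : ∀ k, 0 < n k
  gap : ∀ k, q * (n k : ℝ) ≤ (n (k + 1) : ℝ)

variable {n : ℕ → ℕ} {q : ℝ}

theorem Gap.pow (h : Gap n q) (i d : ℕ) : q ^ d * (n i : ℝ) ≤ (n (i + d) : ℝ) := by
  induction d with
  | zero => simp
  | succ d ih =>
    have h1 := h.gap (i + d)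
    have h2 := h.one_lt
    calc q ^ (d + 1) * (n i : ℝ) = q * (q ^ d * n i) := by ring
      _ ≤ q * n (i + d) := by
          apply mul_le_mul_of_nonneg_left ih
          linarith
      _ ≤ n (i + d + 1) := h1

theorem Gap.lt_succ (h : Gap n q) (k : ℕ) : n k < n (k + 1) := by
  have h1 := h.gap k
  have h2 := h.one_lt
  have h3 : (0 : ℝ) < n k := by exact_mod_cast h.pos k
  have : (n k : ℝ) < n (k + 1) := by nlinarith
  exact_mod_cast this

theorem Gap.strictMono (h : Gap n q) : StrictMono n := strictMono_nat_of_lt_succ h.lt_succ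

/-- sums of two frequencies -/
def phi (n : ℕ → ℕ) (p : ℕ × ℕ) : ℕ := n p.1 + n p.2

/-- differences of two frequencies -/
def psi (n : ℕ → ℕ) (p : ℕ × ℕ) : ℕ := ((n p.1 : ℤ) - n p.2).natAbs

theorem fibre_card (h : Gap n q) {A : ℝ} (f : ℕ × ℕ → ℕ)
    (h1 : ∀ p, 0 < f p → (f p : ℝ) ≤ 2 * n (max p.1 p.2) ∧ (n (max p.1 p.2) : ℝ) ≤ A * f p)
    (hinj : ∀ p p', f p = f p' → 0 < f p → max p.1 p.2 = max p'.1 p'.2 →
      (p.1 < p.2 ↔ p'.1 < p'.2) → p = p') (hA : 0 < A) {R : ℕ} (hR : 2 * A < q ^ R)
    (v : ℕ) (hv : 0 < v) (s : Finset (ℕ × ℕ)) (hs : ∀ p ∈ s, f p = v) : s.card ≤ 2 * R := by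
  classical
  rcases s.eq_empty_or_nonempty with rfl | hne
  · simp
  obtain ⟨p0, hp0, hmin⟩ := s.exists_min_image (fun p => max p.1 p.2) hne
  set M0 := max p0.1 p0.2 with hM0
  have key : ∀ p ∈ s, max p.1 p.2 < M0 + R := by
    intro p hp
    by_contra hcon
    push Not at hcon
    obtain ⟨d, hd⟩ := Nat.exists_eq_add_of_le hcon
    have e1 := h1 p (by rw [hs p hp]; exact hv)
    have e2 := h1 p0 (by rw [hs p0 hp0]; exact hv)
    rw [hs p hp] at e1
    rw [hs p0 hp0, ← hM0] at e2
    have e3 := h.pow M0 (R + d)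
    rw [← add_assoc, ← hd] at e3
    have e4 : (0 : ℝ) < n M0 := by exact_mod_cast h.pos M0
    have e5 : (1 : ℝ) ≤ q ^ d := one_le_pow₀ h.one_lt.le
    have e6 : 2 * A * n M0 < q ^ (R + d) * n M0 := by
      apply mul_lt_mul_of_pos_right _ e4
      rw [pow_add]
      have : 0 < q ^ R := pow_pos (by linarith [h.one_lt]) _
      nlinarith
    have e7 : (n (max p.1 p.2) : ℝ) ≤ A * (2 * n M0) :=
      e1.2.trans (mul_le_mul_of_nonneg_left e2.1 hA.le)
    nlinarith
  have hcard : s.card ≤ ((Finset.Ico M0 (M0 + R)) ×ˢ (Finset.univ : Finset Bool)).card := by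
    apply Finset.card_le_card_of_injOn (fun p => (max p.1 p.2, decide (p.1 < p.2)))
    · intro p hp
      simp only [Finset.coe_product, Set.mem_prod, Finset.mem_coe, Finset.mem_Ico,
        Finset.mem_univ, and_true]
      exact ⟨hmin p hp, key p hp⟩
    · intro p hp p' hp' heq
      simp only [Prod.mk.injEq, decide_eq_decide] at heq
      exact hinj p p' (by rw [hs p hp, hs p' hp']) (by rw [hs p hp]; exact hv) heq.1 heq.2
  refine hcard.trans ?_
  simp [mul_comm]

theorem phi_card (h : Gap n q) {R : ℕ} (hR : 2 * (q / (q - 1)) < q ^ R) (v : ℕ) (hv : 0 < v)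
    (s : Finset (ℕ × ℕ)) (hs : ∀ p ∈ s, phi n p = v) : s.card ≤ 2 * R := by
  have hq := h.one_lt
  have hA : 1 ≤ q / (q - 1) := by
    rw [le_div_iff₀ (by linarith)]
    linarith
  have hmono := h.strictMono.monotone
  refine fibre_card h (A := q / (q - 1)) (phi n) ?_ ?_ (by linarith) hR v hv s hs
  · intro p _
    have e1 : n p.1 ≤ n (max p.1 p.2) := hmono (le_max_left _ _)
    have e2 : n p.2 ≤ n (max p.1 p.2) := hmono (le_max_right _ _)
    have e3 : n (max p.1 p.2) ≤ phi n p := by
      unfold phi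
      rcases max_choice p.1 p.2 with h' | h' <;> rw [h'] <;> omega
    constructor
    · have : phi n p ≤ 2 * n (max p.1 p.2) := by unfold phi; omega
      exact_mod_cast this
    · have e4 : (n (max p.1 p.2) : ℝ) ≤ phi n p := by exact_mod_cast e3
      have e5 : (0 : ℝ) ≤ phi n p := by positivity
      nlinarith
  · rintro ⟨j, k⟩ ⟨j', k'⟩ e1 _ e2 e3
    unfold phi at e1
    simp only at e1 e2 e3
    have inj := h.strictMono.injective
    rcases lt_or_ge j k with hjk | hjk
    · have hjk' := e3.1 hjk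
      rw [max_eq_right hjk.le, max_eq_right hjk'.le] at e2
      subst e2
      have : n j = n j' := by omega
      rw [inj this]
    · have hjk' : k' ≤ j' := by
        by_contra hc
        exact absurd (e3.2 (by omega)) (by omega)
      rw [max_eq_left hjk, max_eq_left hjk'] at e2
      subst e2
      have : n k = n k' := by omega
      rw [inj this]

theorem psi_card (h : Gap n q) {R : ℕ} (hR : 2 * (q / (q - 1)) < q ^ R) (v : ℕ) (hv : 0 < v)
    (s : Finset (ℕ × ℕ)) (hs : ∀ p ∈ s, psi n p = v) : s.card ≤ 2 * R := by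
  have hq := h.one_lt
  have hA : 1 ≤ q / (q - 1) := by
    rw [le_div_iff₀ (by linarith)]
    linarith
  have hmono := h.strictMono.monotone
  have low : ∀ j k, j < k → (n k : ℝ) ≤ q / (q - 1) * ((n k : ℝ) - n j) := by
    intro j k hjk
    obtain ⟨d, rfl⟩ := Nat.exists_eq_add_of_lt hjk
    have e1 := h.gap (j + d)
    have e2 : (n j : ℝ) ≤ n (j + d) := by exact_mod_cast hmono (Nat.le_add_right _ _)
    have e3 : q * (n j : ℝ) ≤ n (j + d + 1) := by nlinarith
    rw [div_mul_eq_mul_div, le_div_iff₀ (by linarith)]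
    nlinarith
  refine fibre_card h (A := q / (q - 1)) (psi n) ?_ ?_ (by linarith) hR v hv s hs
  · rintro ⟨j, k⟩ hp
    unfold psi at hp ⊢
    simp only at hp ⊢
    rcases lt_trichotomy j k with hjk | hjk | hjk
    · rw [max_eq_right hjk.le]
      have e1 := low j k hjk
      have e2 := h.strictMono hjk
      have e3 : ((((n j : ℤ) - n k).natAbs : ℕ) : ℝ) = (n k : ℝ) - n j := by
        have : ((((n j : ℤ) - n k).natAbs : ℕ) : ℤ) = (n k : ℤ) - n j := by omega
        rw [← Int.cast_natCast, this]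
        push_cast
        ring
      rw [e3]
      have e4 : (0 : ℝ) ≤ n j := by positivity
      have e5 : (0 : ℝ) ≤ n k := by positivity
      exact ⟨by linarith, e1⟩
    · subst hjk
      simp at hp
    · rw [max_eq_left hjk.le]
      have e1 := low k j hjk
      have e2 := h.strictMono hjk
      have e3 : ((((n j : ℤ) - n k).natAbs : ℕ) : ℝ) = (n j : ℝ) - n k := by
        have : ((((n j : ℤ) - n k).natAbs : ℕ) : ℤ) = (n j : ℤ) - n k := by omega
        rw [← Int.cast_natCast, this]
        push_cast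
        ring
      rw [e3]
      have e4 : (0 : ℝ) ≤ n j := by positivity
      have e5 : (0 : ℝ) ≤ n k := by positivity
      exact ⟨by linarith, e1⟩
  · rintro ⟨j, k⟩ ⟨j', k'⟩ e1 e0 e2 e3
    unfold psi at e1 e0
    simp only at e1 e2 e3 e0
    have inj := h.strictMono.injective
    rcases lt_or_ge j k with hjk | hjk
    · have hjk' := e3.1 hjk
      rw [max_eq_right hjk.le, max_eq_right hjk'.le] at e2
      subst e2
      have h1 := h.strictMono hjk
      have h2 := h.strictMono hjk'
      have : n j = n j' := by omega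
      rw [inj this]
    · have hjk' : k' ≤ j' := by
        by_contra hc
        exact absurd (e3.2 (by omega)) (by omega)
      rw [max_eq_left hjk, max_eq_left hjk'] at e2
      subst e2
      have h1 := hmono hjk
      have h2 := hmono hjk'
      have : n k = n k' := by omega
      rw [inj this]

theorem psi_eq_zero (h : Gap n q) (p : ℕ × ℕ) : psi n p = 0 ↔ p.1 = p.2 := by
  unfold psi
  constructor
  · intro hp
    have : n p.1 = n p.2 := by omega
    exact h.strictMono.injective this
  · intro hp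
    rw [hp]
    simp

theorem exists_R (h : Gap n q) : ∃ R : ℕ, 2 * (q / (q - 1)) < q ^ R :=
  pow_unbounded_of_one_lt _ h.one_lt

/-! ## Partial sums -/

/-- the partial sums -/
noncomputable def S (n : ℕ → ℕ) (m : ℕ) (x : ℝ) : ℝ :=
  ∑ k ∈ Finset.range m, Real.cos ((n k : ℝ) * x)

theorem S_cont (n : ℕ → ℕ) (m : ℕ) : Continuous (S n m) := by
  unfold S
  fun_prop

theorem S_sq (n : ℕ → ℕ) (m : ℕ) (x : ℝ) :
    S n m x ^ 2 = (1 / 2) * (∑ p ∈ Finset.range m ×ˢ Finset.range m,
        Real.cos ((phi n p : ℝ) * x)) + (1 / 2) * ∑ p ∈ Finset.range m ×ˢ Finset.range m,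
        Real.cos ((psi n p : ℝ) * x) := by
  rw [← mul_add, ← Finset.sum_add_distrib, Finset.mul_sum]
  unfold S
  rw [sq, Finset.sum_mul_sum, ← Finset.sum_product']
  refine Finset.sum_congr rfl fun p _ => ?_
  have e1 : Real.cos ((psi n p : ℝ) * x) = Real.cos (((n p.1 : ℝ) - n p.2) * x) := by
    have : ((psi n p : ℕ) : ℝ) = |(n p.1 : ℝ) - n p.2| := by
      unfold psi
      rw [Nat.cast_natAbs]
      push_cast
      rfl
    rw [this]
    rcases abs_choice ((n p.1 : ℝ) - n p.2) with h | h
    · rw [h]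
    · rw [h, neg_mul, Real.cos_neg]
  rw [e1]
  unfold phi
  push_cast
  rw [add_mul, sub_mul, Real.cos_add, Real.cos_sub]
  ring

theorem int_S_sq {E : Set ℝ} (hE : E ⊆ Set.Icc 0 (2 * Real.pi)) (n : ℕ → ℕ) (m : ℕ) :
    ∫ x in E, S n m x ^ 2 = (1 / 2) * (∑ p ∈ Finset.range m ×ˢ Finset.range m, c E (phi n p)) +
      (1 / 2) * ∑ p ∈ Finset.range m ×ˢ Finset.range m, c E (psi n p) := by
  simp only [S_sq]
  rw [integral_add (intOn hE (by fun_prop)) (intOn hE (by fun_prop)), integral_const_mul,
    integral_const_mul, integral_finsetSum _ fun p _ => intOn hE (by fun_prop),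
    integral_finsetSum _ fun p _ => intOn hE (by fun_prop)]
  rfl

theorem c_zero (E : Set ℝ) : c E 0 = volume.real E := by
  unfold c
  simp [Measure.real]

/-- lower bound for the mean square over `E` -/
theorem l2_lower (h : Gap n q) {E : Set ℝ} (hE : E ⊆ Set.Icc 0 (2 * Real.pi))
    (hpos : 0 < volume.real E) : ∀ᶠ m : ℕ in atTop,
      volume.real E / 4 * m ≤ ∫ x in E, S n m x ^ 2 := by
  classical
  obtain ⟨R, hR⟩ := exists_R h
  have hb := bessel hE
  set g : ℕ → ℝ := fun v => if v = 0 then 0 else c E v ^ 2 with hg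
  have hg0 : ∀ v, 0 ≤ g v := fun v => by
    simp only [hg]
    split_ifs
    · exact le_rfl
    · positivity
  have hgs : Summable g := by
    refine Summable.of_nonneg_of_le hg0 (fun v => ?_) hb
    simp only [hg]
    split_ifs
    · positivity
    · exact le_rfl
  have s1 : Summable fun p => g (phi n p) := by
    refine summable_fibre (phi n) (2 * R) {v | 0 < v} (fun v hv s hs => ?_) g hg0 hgs ?_
    · exact phi_card h hR v hv s hs
    · intro v hv
      have : v = 0 := by simpa using hv
      simp [hg, this]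
  have s2 : Summable fun p => g (psi n p) := by
    refine summable_fibre (psi n) (2 * R) {v | 0 < v} (fun v hv s hs => ?_) g hg0 hgs ?_
    · exact psi_card h hR v hv s hs
    · intro v hv
      have : v = 0 := by simpa using hv
      simp [hg, this]
  set b1 : ℕ × ℕ → ℝ := fun p => if phi n p = 0 then 0 else c E (phi n p) with hb1
  set b2 : ℕ × ℕ → ℝ := fun p => if psi n p = 0 then 0 else c E (psi n p) with hb2
  have t1 : Summable fun p => b1 p ^ 2 := by
    refine s1.congr fun p => ?_
    simp only [hg, hb1]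
    split_ifs <;> simp
  have t2 : Summable fun p => b2 p ^ 2 := by
    refine s2.congr fun p => ?_
    simp only [hg, hb2]
    split_ifs <;> simp
  filter_upwards [avg2 b1 t1 (δ := volume.real E / 4) (by positivity),
    avg2 b2 t2 (δ := volume.real E / 4) (by positivity)] with m h1 h2
  rw [int_S_sq hE]
  set P := Finset.range m ×ˢ Finset.range m with hP
  have e1 : ∑ p ∈ P, c E (phi n p) = ∑ p ∈ P, b1 p := by
    refine Finset.sum_congr rfl fun p _ => ?_
    have : phi n p ≠ 0 := by
      have := h.pos p.1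
      unfold phi
      omega
    simp [hb1, this]
  have e2 : ∑ p ∈ P, c E (psi n p) = m * volume.real E + ∑ p ∈ P, b2 p := by
    have e3 : ∀ p ∈ P, c E (psi n p) = (if p.1 = p.2 then volume.real E else 0) + b2 p := by
      intro p _
      simp only [hb2, psi_eq_zero h]
      split_ifs with hp
      · rw [(psi_eq_zero h p).2 hp, c_zero, add_zero]
      · rw [zero_add]
    rw [Finset.sum_congr rfl e3, Finset.sum_add_distrib]
    congr 1
    rw [hP, Finset.sum_product]
    simp only
    have e4 : ∀ i ∈ Finset.range m, (∑ j ∈ Finset.range m,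
        if i = j then volume.real E else 0) = volume.real E := by
      intro i hi
      rw [Finset.sum_ite_eq]
      simp [Finset.mem_range.1 hi]
    rw [Finset.sum_congr rfl e4, Finset.sum_const, Finset.card_range, nsmul_eq_mul]
  rw [e1, e2]
  have f1 : -∑ p ∈ P, |b1 p| ≤ ∑ p ∈ P, b1 p := by
    rw [← Finset.sum_neg_distrib]
    exact Finset.sum_le_sum fun p _ => neg_abs_le _
  have f2 : -∑ p ∈ P, |b2 p| ≤ ∑ p ∈ P, b2 p := by
    rw [← Finset.sum_neg_distrib]
    exact Finset.sum_le_sum fun p _ => neg_abs_le _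
  nlinarith

/-- number of coincidences -/
theorem sq_sum_le (m : ℕ) (f : ℕ × ℕ → ℕ) (K : ℝ)
    (hK : ∑ p ∈ Finset.range m ×ˢ Finset.range m,
      (((Finset.range m ×ˢ Finset.range m).filter fun p' => f p = f p').card : ℝ) ≤ K) :
    ∫ x in Set.Icc (0 : ℝ) (2 * Real.pi), (∑ p ∈ Finset.range m ×ˢ Finset.range m,
      Real.cos ((f p : ℝ) * x)) ^ 2 ≤ 2 * Real.pi * K := by
  classical
  set P := Finset.range m ×ˢ Finset.range m with hP
  have e : ∀ x : ℝ, (∑ p ∈ P, Real.cos ((f p : ℝ) * x)) ^ 2 =
      ∑ p ∈ P, ∑ p' ∈ P, Real.cos ((f p : ℝ) * x) * Real.cos ((f p' : ℝ) * x) := by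
    intro x
    rw [sq, Finset.sum_mul_sum]
  simp only [e]
  rw [integral_finsetSum _ fun p _ => intOn le_rfl (by fun_prop)]
  calc ∑ p ∈ P, ∫ x in Set.Icc (0 : ℝ) (2 * Real.pi), ∑ p' ∈ P,
        Real.cos ((f p : ℝ) * x) * Real.cos ((f p' : ℝ) * x)
      ≤ ∑ p ∈ P, 2 * Real.pi * ((P.filter fun p' => f p = f p').card : ℝ) := by
        refine Finset.sum_le_sum fun p _ => ?_
        rw [integral_finsetSum _ fun p _ => intOn le_rfl (by fun_prop)]
        calc _ ≤ ∑ p' ∈ P, if f p = f p' then 2 * Real.pi else 0 :=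
              Finset.sum_le_sum fun p' _ => orth_le _ _
          _ = _ := by
              rw [← Finset.sum_filter, Finset.sum_const, nsmul_eq_mul, mul_comm]
    _ = 2 * Real.pi * ∑ p ∈ P, ((P.filter fun p' => f p = f p').card : ℝ) := by
        rw [Finset.mul_sum]
    _ ≤ 2 * Real.pi * K := mul_le_mul_of_nonneg_left hK (by positivity)

/-- the fourth moment -/
theorem l4_upper (h : Gap n q) : ∃ C : ℝ, 0 < C ∧ ∀ m : ℕ,
    ∫ x in Set.Icc (0 : ℝ) (2 * Real.pi), S n m x ^ 4 ≤ C * (m : ℝ) ^ 2 := by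
  classical
  obtain ⟨R, hR⟩ := exists_R h
  refine ⟨Real.pi * (4 * R + 1), by positivity, ?_⟩
  intro m
  set P := Finset.range m ×ˢ Finset.range m with hP
  have hPc : ((P.card : ℕ) : ℝ) = (m : ℝ) ^ 2 := by
    rw [hP, Finset.card_product, Finset.card_range]
    push_cast
    ring
  have k1 : ∑ p ∈ P, ((P.filter fun p' => phi n p = phi n p').card : ℝ) ≤ 2 * R * (m : ℝ) ^ 2 := by
    calc _ ≤ ∑ p ∈ P, (2 * R : ℝ) := by
          refine Finset.sum_le_sum fun p _ => ?_
          have := phi_card h hR (phi n p) (by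
            have := h.pos p.1
            unfold phi
            omega) (P.filter fun p' => phi n p = phi n p') fun p' hp' =>
              (Finset.mem_filter.1 hp').2.symm
          exact_mod_cast this
      _ = _ := by
          rw [Finset.sum_const, nsmul_eq_mul, hPc]
          ring
  have k2 : ∑ p ∈ P, ((P.filter fun p' => psi n p = psi n p').card : ℝ) ≤
      (2 * R + 1) * (m : ℝ) ^ 2 := by
    calc _ ≤ ∑ p ∈ P, ((2 * R : ℝ) + if p.1 = p.2 then (m : ℝ) else 0) := by
          refine Finset.sum_le_sum fun p _ => ?_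
          by_cases hp : p.1 = p.2
          · rw [if_pos hp]
            have e1 : (P.filter fun p' => psi n p = psi n p').card ≤ m := by
              have e2 : (P.filter fun p' => psi n p = psi n p').card ≤ (Finset.range m).card := by
                apply Finset.card_le_card_of_injOn (fun p' => p'.1)
                · intro p' hp'
                  have := (Finset.mem_filter.1 hp').1
                  rw [hP, Finset.mem_product] at this
                  exact this.1
                · intro p' hp' p'' hp'' heq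
                  have a1 := (Finset.mem_filter.1 hp').2
                  have a2 := (Finset.mem_filter.1 hp'').2
                  rw [(psi_eq_zero h p).2 hp] at a1 a2
                  have b1 := (psi_eq_zero h p').1 a1.symm
                  have b2 := (psi_eq_zero h p'').1 a2.symm
                  simp only at heq
                  exact Prod.ext heq (by rw [← b1, ← b2, heq])
              rwa [Finset.card_range] at e2
            have e3 : ((P.filter fun p' => psi n p = psi n p').card : ℝ) ≤ m := by exact_mod_cast e1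
            have e4 : (0 : ℝ) ≤ 2 * R := by positivity
            linarith
          · rw [if_neg hp, add_zero]
            have := psi_card h hR (psi n p) (Nat.pos_of_ne_zero fun h0 =>
              hp ((psi_eq_zero h p).1 h0)) (P.filter fun p' => psi n p = psi n p') fun p' hp' =>
                (Finset.mem_filter.1 hp').2.symm
            exact_mod_cast this
      _ = _ := by
          rw [Finset.sum_add_distrib, Finset.sum_const, nsmul_eq_mul, hPc, hP, Finset.sum_product]
          simp only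
          have e4 : ∀ i ∈ Finset.range m, (∑ j ∈ Finset.range m,
              if i = j then (m : ℝ) else 0) = m := by
            intro i hi
            rw [Finset.sum_ite_eq]
            simp [Finset.mem_range.1 hi]
          rw [Finset.sum_congr rfl e4, Finset.sum_const, Finset.card_range, nsmul_eq_mul]
          ring
  have i1 := sq_sum_le m (phi n) _ k1
  have i2 := sq_sum_le m (psi n) _ k2
  have e : ∀ x : ℝ, S n m x ^ 4 ≤ (1 / 2) * (∑ p ∈ P, Real.cos ((phi n p : ℝ) * x)) ^ 2 +
      (1 / 2) * (∑ p ∈ P, Real.cos ((psi n p : ℝ) * x)) ^ 2 := by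
    intro x
    have : S n m x ^ 4 = (S n m x ^ 2) ^ 2 := by ring
    rw [this, S_sq]
    nlinarith [sq_nonneg ((∑ p ∈ P, Real.cos ((phi n p : ℝ) * x)) -
      (∑ p ∈ P, Real.cos ((psi n p : ℝ) * x)))]
  have hS := S_cont n m
  calc ∫ x in Set.Icc (0 : ℝ) (2 * Real.pi), S n m x ^ 4 ≤
      ∫ x in Set.Icc (0 : ℝ) (2 * Real.pi),
        ((1 / 2) * (∑ p ∈ P, Real.cos ((phi n p : ℝ) * x)) ^ 2 +
          (1 / 2) * (∑ p ∈ P, Real.cos ((psi n p : ℝ) * x)) ^ 2) := by
        apply integral_mono
        · exact intOn le_rfl (by fun_prop)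
        · exact intOn le_rfl (by fun_prop)
        · exact e
    _ = (1 / 2) * (∫ x in Set.Icc (0 : ℝ) (2 * Real.pi),
          (∑ p ∈ P, Real.cos ((phi n p : ℝ) * x)) ^ 2) +
        (1 / 2) * (∫ x in Set.Icc (0 : ℝ) (2 * Real.pi),
          (∑ p ∈ P, Real.cos ((psi n p : ℝ) * x)) ^ 2) := by
        rw [integral_add (intOn le_rfl (by fun_prop)) (intOn le_rfl (by fun_prop)),
          integral_const_mul, integral_const_mul]
    _ ≤ Real.pi * (4 * R + 1) * (m : ℝ) ^ 2 := by
        linarith

/-- lower bound for the mean absolute value over `E` -/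
theorem l1_lower (h : Gap n q) {E : Set ℝ} (hE : E ⊆ Set.Icc 0 (2 * Real.pi))
    (hpos : 0 < volume.real E) : ∃ a : ℝ, 0 < a ∧ ∀ᶠ m : ℕ in atTop,
      a * √m ≤ ∫ x in E, |S n m x| := by
  obtain ⟨C, hC, h4⟩ := l4_upper h
  set e := volume.real E with he
  set B : ℝ := √(8 * C / e) with hB
  have hB0 : 0 < B := Real.sqrt_pos.2 (by positivity)
  have hB2 : B ^ 2 = 8 * C / e := Real.sq_sqrt (by positivity)
  refine ⟨e / (8 * B), by positivity, ?_⟩
  filter_upwards [l2_lower h hE hpos, eventually_gt_atTop 0] with m h2 hm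
  have hm' : (0 : ℝ) < m := by exact_mod_cast hm
  have hs : 0 < √(m : ℝ) := Real.sqrt_pos.2 hm'
  have hs2 : √(m : ℝ) ^ 2 = m := Real.sq_sqrt hm'.le
  set r := √(m : ℝ) with hr
  have hS := S_cont n m
  have i4 : ∫ x in E, S n m x ^ 4 ≤ C * (m : ℝ) ^ 2 := by
    refine le_trans ?_ (h4 m)
    apply setIntegral_mono_set
    · exact intOn le_rfl (by fun_prop)
    · exact ae_of_all _ fun x => by
        show (0 : ℝ) ≤ S n m x ^ 4
        positivity
    · exact hE.eventuallyLE
  set l : ℝ := B * r with hl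
  have hl0 : 0 < l := by positivity
  have key : ∀ x, S n m x ^ 2 * l⁻¹ - S n m x ^ 4 * (l⁻¹) ^ 3 ≤ |S n m x| := by
    intro x
    set y := |S n m x| with hy
    have hy0 : 0 ≤ y := abs_nonneg _
    have e1 : S n m x ^ 2 = y ^ 2 := (sq_abs _).symm
    have e2 : S n m x ^ 4 = y ^ 4 := by
      have : S n m x ^ 4 = (S n m x ^ 2) ^ 2 := by ring
      rw [this, e1]
      ring
    rw [e1, e2]
    set z := y * l⁻¹ with hz
    have hz0 : 0 ≤ z := by positivity
    have e3 : y ^ 2 * l⁻¹ - y ^ 4 * (l⁻¹) ^ 3 = y * (z - z ^ 3) := by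
      rw [hz]
      ring
    rw [e3]
    have e4 : z - z ^ 3 ≤ 1 := by
      nlinarith [sq_nonneg (z - 1), sq_nonneg z, sq_nonneg (z + 1), mul_nonneg hz0 (sq_nonneg (z-1))]
    nlinarith
  have i1 : (∫ x in E, S n m x ^ 2) * l⁻¹ - (∫ x in E, S n m x ^ 4) * (l⁻¹) ^ 3 ≤
      ∫ x in E, |S n m x| := by
    rw [← integral_mul_const, ← integral_mul_const, ← integral_sub (intOn hE (by fun_prop))
      (intOn hE (by fun_prop))]
    apply integral_mono
    · exact intOn hE (by fun_prop)
    · exact intOn hE (by fun_prop)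
    · exact key
  refine le_trans ?_ i1
  have j1 : e / 4 * m * l⁻¹ ≤ (∫ x in E, S n m x ^ 2) * l⁻¹ :=
    mul_le_mul_of_nonneg_right h2 (by positivity)
  have j2 : (∫ x in E, S n m x ^ 4) * (l⁻¹) ^ 3 ≤ C * (m : ℝ) ^ 2 * (l⁻¹) ^ 3 :=
    mul_le_mul_of_nonneg_right i4 (by positivity)
  have j3 : e / (8 * B) * r = e / 4 * m * l⁻¹ - C * (m : ℝ) ^ 2 * (l⁻¹) ^ 3 := by
    have hm2 : (m : ℝ) = r ^ 2 := hs2.symm
    have hCe : C = e * B ^ 2 / 8 := by
      rw [hB2]
      field_simp
    rw [hm2, hCe, hl]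
    field_simp
    ring
  linarith

end Run7.h439.Lac
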