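import Pool.Agent.Run7.h439.Lac2

set_option autoImplicit false

namespace Run7.h439.Lac

open MeasureTheory Filter Topology

variable {n : ℕ → ℕ} {q : ℝ}

/-- the partial sums have small mean over `E` -/
theorem mean_small (h : Gap n q) {E : Set ℝ} (hE : E ⊆ Set.Icc 0 (2 * Real.pi)) {δ : ℝ}
    (hδ : 0 < δ) : ∀ᶠ m : ℕ in atTop, |∫ x in E, S n m x| ≤ δ * √m := by
  have hs : Summable fun k => c E (n k) ^ 2 :=
    (bessel hE).comp_injective h.strictMono.injective
  filter_upwards [avg1 (fun k => c E (n k)) hs hδ] with m hm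
  refine le_trans ?_ hm
  have : ∫ x in E, S n m x = ∑ k ∈ Finset.range m, c E (n k) := by
    unfold S
    rw [integral_finsetSum _ fun p _ => intOn hE (by fun_prop)]
    rfl
  rw [this]
  exact Finset.abs_sum_le_sum_abs _ _

/-- the partial sums are not bounded on one side on a set of positive measure -/
theorem onesided (h : Gap n q) {E : Set ℝ} (hE : E ⊆ Set.Icc 0 (2 * Real.pi))
    (hm : MeasurableSet E) (σ C : ℝ) (hσ : |σ| = 1) (hC : 0 ≤ C) (M : ℕ)
    (hb : ∀ x ∈ E, ∀ m, M ≤ m → σ * S n m x ≤ C) : volume E = 0 := by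
  by_contra hne
  have hfin : volume E ≠ ⊤ := by
    refine ne_top_of_le_ne_top ?_ (measure_mono hE)
    rw [Real.volume_Icc]
    exact ENNReal.ofReal_ne_top
  have hpos : 0 < volume.real E := ENNReal.toReal_pos hne hfin
  obtain ⟨a, ha, hl⟩ := l1_lower h hE hpos
  have hlarge : ∀ᶠ m : ℕ in atTop, 2 * C * volume.real E < a / 2 * √m := by
    have : Tendsto (fun m : ℕ => a / 2 * √(m : ℝ)) atTop atTop :=
      (Real.tendsto_sqrt_atTop.comp tendsto_natCast_atTop_atTop).const_mul_atTop (by positivity)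
    exact this.eventually_gt_atTop _
  obtain ⟨m, h1, h2, h3, h4⟩ := (hl.and ((mean_small h hE (δ := a / 2) (by positivity)).and
    (hlarge.and (eventually_ge_atTop M)))).exists
  have hS := S_cont n m
  have key : ∫ x in E, |S n m x| ≤ ∫ x in E, (2 * C - σ * S n m x) := by
    apply setIntegral_mono_on
    · exact intOn hE (by fun_prop)
    · exact intOn hE (by fun_prop)
    · exact hm
    · intro x hx
      have e1 := hb x hx m h4
      have e2 : |S n m x| = |σ * S n m x| := by rw [abs_mul, hσ, one_mul]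
      rw [e2]
      rcases abs_cases (σ * S n m x) with ⟨e3, _⟩ | ⟨e3, _⟩ <;> rw [e3] <;> linarith
  have e1 : ∫ x in E, (2 * C - σ * S n m x) = 2 * C * volume.real E - σ * ∫ x in E, S n m x := by
    have e0 : ∫ x in E, σ * S n m x = σ * ∫ x in E, S n m x := integral_const_mul _ _
    rw [integral_sub (intOn hE (by fun_prop)) (intOn hE (by fun_prop)), e0,
      setIntegral_const, smul_eq_mul]
    ring
  have e2 : -(σ * ∫ x in E, S n m x) ≤ a / 2 * √m := by
    refine (neg_le_abs _).trans ?_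
    rw [abs_mul, hσ, one_mul]
    exact h2
  linarith

theorem S_meas (n : ℕ → ℕ) (m : ℕ) : Measurable (S n m) := (S_cont n m).measurable

/-- almost everywhere the partial sums are above and below every level infinitely often -/
theorem ae_osc (h : Gap n q) : ∀ᵐ x ∂(volume.restrict (Set.Icc (0 : ℝ) (2 * Real.pi))),
    ∀ ξ : ℕ, (∃ᶠ m in atTop, (ξ : ℝ) < S n m x) ∧ ∃ᶠ m in atTop, S n m x < -(ξ : ℝ) := by
  rw [ae_all_iff]
  intro ξ
  have gen : ∀ σ : ℝ, |σ| = 1 → ∀ᵐ x ∂(volume.restrict (Set.Icc (0 : ℝ) (2 * Real.pi))),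
      ∃ᶠ m in atTop, (ξ : ℝ) < σ * S n m x := by
    intro σ hσ
    rw [ae_restrict_iff' measurableSet_Icc]
    have : ∀ M : ℕ, ∀ᵐ x ∂volume, x ∈ Set.Icc (0 : ℝ) (2 * Real.pi) →
        ∃ m, M ≤ m ∧ (ξ : ℝ) < σ * S n m x := by
      intro M
      have hset : MeasurableSet {x : ℝ | x ∈ Set.Icc (0 : ℝ) (2 * Real.pi) ∧
          ∀ m, M ≤ m → σ * S n m x ≤ ξ} := by
        have : {x : ℝ | x ∈ Set.Icc (0 : ℝ) (2 * Real.pi) ∧ ∀ m, M ≤ m → σ * S n m x ≤ ξ} =
            Set.Icc (0 : ℝ) (2 * Real.pi) ∩ ⋂ m, ⋂ (_ : M ≤ m), {x : ℝ | σ * S n m x ≤ ξ} := by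
          ext x
          simp
        rw [this]
        refine measurableSet_Icc.inter ?_
        refine MeasurableSet.iInter fun m => MeasurableSet.iInter fun _ => ?_
        exact measurableSet_le (measurable_const.mul (S_meas n m)) measurable_const
      have h0 := onesided h (E := {x : ℝ | x ∈ Set.Icc (0 : ℝ) (2 * Real.pi) ∧
          ∀ m, M ≤ m → σ * S n m x ≤ ξ}) (fun x hx => hx.1) hset σ ξ hσ (by positivity) M
          (fun x hx => hx.2)
      rw [ae_iff]
      refine measure_mono_null ?_ h0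
      intro x hx
      simp only [Set.mem_ofPred_eq] at hx ⊢
      push Not at hx
      exact hx
    rw [← ae_all_iff] at this
    filter_upwards [this] with x hx hxI
    rw [frequently_atTop]
    intro M
    obtain ⟨m, hm1, hm2⟩ := hx M hxI
    exact ⟨m, hm1, hm2⟩
  filter_upwards [gen 1 (by simp), gen (-1) (by simp)] with x h1 h2
  refine ⟨h1.mono fun m hm => by linarith, h2.mono fun m hm => by linarith⟩

/-- a crossing -/
theorem crossing {x : ℝ} {ξ : ℝ} (h1 : ∃ᶠ m in atTop, ξ < S n m x)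
    (h2 : ∃ᶠ m in atTop, S n m x < ξ) : ∃ᶠ m in atTop, S n m x ≤ ξ ∧ ξ < S n (m + 1) x := by
  rw [frequently_atTop] at h1 h2 ⊢
  intro M
  obtain ⟨m1, hm1, hx1⟩ := h2 M
  obtain ⟨m2, hm2, hx2⟩ := h1 m1
  by_contra hcon
  push Not at hcon
  have : ∀ d, S n (m1 + d) x ≤ ξ := by
    intro d
    induction d with
    | zero => exact hx1.le
    | succ d ih => exact hcon (m1 + d) (by omega) ih
  obtain ⟨d, rfl⟩ := Nat.exists_eq_add_of_le hm2
  exact absurd (this d) (not_le.2 hx2)

theorem sum_le (h : Gap n q) (m : ℕ) :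
    ∑ k ∈ Finset.range (m + 1), (n k : ℝ) ≤ q / (q - 1) * n m := by
  have hq := h.one_lt
  induction m with
  | zero =>
    simp only [zero_add, Finset.range_one, Finset.sum_singleton]
    have : 1 ≤ q / (q - 1) := by
      rw [le_div_iff₀ (by linarith)]
      linarith
    have e : (0 : ℝ) ≤ n 0 := by positivity
    nlinarith
  | succ m ih =>
    rw [Finset.sum_range_succ]
    have h1 := h.gap m
    have e : q / (q - 1) * (n (m + 1) : ℝ) = n (m + 1) + (1 / (q - 1)) * n (m + 1) := by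
      have : q - 1 ≠ 0 := by linarith
      field_simp
      ring
    rw [e]
    have e2 : q / (q - 1) * (n m : ℝ) ≤ (1 / (q - 1)) * n (m + 1) := by
      have h0 : (0 : ℝ) ≤ 1 / (q - 1) := by
        apply div_nonneg <;> linarith
      have : q / (q - 1) * (n m : ℝ) = 1 / (q - 1) * (q * n m) := by ring
      rw [this]
      exact mul_le_mul_of_nonneg_left h1 h0
    linarith

theorem S_lip (h : Gap n q) (m m' : ℕ) (hm : m' ≤ m + 1) (x y : ℝ) :
    |S n m' x - S n m' y| ≤ q / (q - 1) * n m * |x - y| := by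
  unfold S
  rw [← Finset.sum_sub_distrib]
  refine (Finset.abs_sum_le_sum_abs _ _).trans ?_
  have e1 : ∀ k ∈ Finset.range m', |Real.cos ((n k : ℝ) * x) - Real.cos ((n k : ℝ) * y)| ≤
      n k * |x - y| := by
    intro k _
    have := Real.abs_cos_sub_cos_le ((n k : ℝ) * x) ((n k : ℝ) * y)
    refine this.trans (le_of_eq ?_)
    rw [← mul_sub, abs_mul, abs_of_nonneg (by positivity)]
  refine (Finset.sum_le_sum e1).trans ?_
  rw [← Finset.sum_mul]
  refine mul_le_mul_of_nonneg_right ?_ (abs_nonneg _)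
  refine le_trans ?_ (sum_le h m)
  exact Finset.sum_le_sum_of_subset_of_nonneg (Finset.range_mono hm) fun _ _ _ => by positivity

/-- near a crossing there is an exact hit -/
theorem hit (h : Gap n q) {x ξ : ℝ} {m : ℕ} (h1 : S n m x ≤ ξ) (h2 : ξ < S n (m + 1) x) :
    ∃ y, ∃ m', (m' = m ∨ m' = m + 1) ∧ x ≤ y ∧ y ≤ x + 2 * Real.pi / n m ∧ S n m' y = ξ := by
  have hn : (0 : ℝ) < n m := by exact_mod_cast h.pos m
  -- a point with `cos (n m * x1) = -1`
  obtain ⟨x1, hx1, hx1', hcos⟩ : ∃ x1, x ≤ x1 ∧ x1 ≤ x + 2 * Real.pi / n m ∧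
      Real.cos ((n m : ℝ) * x1) = -1 := by
    set t : ℝ := ((n m : ℝ) * x - Real.pi) / (2 * Real.pi) with ht
    refine ⟨(Real.pi + ⌈t⌉ * (2 * Real.pi)) / n m, ?_, ?_, ?_⟩
    · rw [le_div_iff₀ hn]
      have := Int.le_ceil t
      have h3 : t * (2 * Real.pi) ≤ ⌈t⌉ * (2 * Real.pi) :=
        mul_le_mul_of_nonneg_right this (by positivity)
      rw [ht, div_mul_cancel₀ _ (by positivity)] at h3
      linarith
    · rw [div_le_iff₀ hn, add_mul, div_mul_cancel₀ _ hn.ne']
      have := (Int.ceil_lt_add_one t).le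
      have h3 : (⌈t⌉ : ℝ) * (2 * Real.pi) ≤ (t + 1) * (2 * Real.pi) :=
        mul_le_mul_of_nonneg_right this (by positivity)
      rw [add_mul, ht, div_mul_cancel₀ _ (by positivity)] at h3
      linarith
    · rw [mul_div_cancel₀ _ hn.ne', Real.cos_add_int_mul_two_pi, Real.cos_pi]
  have hsucc : ∀ y, S n (m + 1) y = S n m y + Real.cos ((n m : ℝ) * y) := by
    intro y
    unfold S
    rw [Finset.sum_range_succ]
  rcases le_or_gt ξ (S n m x1) with h3 | h3
  · obtain ⟨y, hy, hy'⟩ := intermediate_value_Icc hx1 (S_cont n m).continuousOn ⟨h1, h3⟩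
    exact ⟨y, m, Or.inl rfl, hy.1, hy.2.trans hx1', hy'⟩
  · have h4 : S n (m + 1) x1 ≤ ξ := by
      rw [hsucc, hcos]
      linarith
    obtain ⟨y, hy, hy'⟩ := intermediate_value_Icc' hx1 (S_cont n (m + 1)).continuousOn
      ⟨h4, h2.le⟩
    exact ⟨y, m + 1, Or.inr rfl, hy.1, hy.2.trans hx1', hy'⟩

/-- the density argument -/
theorem ae_close (h : Gap n q) (ξ : ℝ) {ε : ℝ} (hε : 0 < ε) (M : ℕ) :
    volume {x : ℝ | x ∈ Set.Icc (0 : ℝ) (2 * Real.pi) ∧
      ∀ m, M ≤ m → ε ≤ |S n m x - ξ|} = 0 := by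
  set E : Set ℝ := {x : ℝ | x ∈ Set.Icc (0 : ℝ) (2 * Real.pi) ∧
      ∀ m, M ≤ m → ε ≤ |S n m x - ξ|} with hE
  have hq := h.one_lt
  have hEm : MeasurableSet E := by
    have : E = Set.Icc (0 : ℝ) (2 * Real.pi) ∩
        ⋂ m, ⋂ (_ : M ≤ m), {x : ℝ | ε ≤ |S n m x - ξ|} := by
      rw [hE]
      ext x
      simp
    rw [this]
    refine measurableSet_Icc.inter ?_
    refine MeasurableSet.iInter fun m => MeasurableSet.iInter fun _ => ?_
    have hS := S_cont n m
    exact measurableSet_le measurable_const (by fun_prop : Continuous _).measurable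
  set L : ℝ := q / (q - 1) with hL
  have hL0 : 0 < L := by
    rw [hL]
    apply div_pos <;> linarith
  set K : ℝ := 4 * Real.pi * L / ε with hK
  have hdens := IsUnifLocDoublingMeasure.ae_tendsto_measure_inter_div volume E K
  have hosc := ae_osc h
  have hE1 : volume.restrict E ≤ volume.restrict (Set.Icc (0 : ℝ) (2 * Real.pi)) :=
    Measure.restrict_mono (fun x hx => hx.1) le_rfl
  have hosc' : ∀ᵐ x ∂(volume.restrict E),
      ∀ ξ : ℕ, (∃ᶠ m in atTop, (ξ : ℝ) < S n m x) ∧ ∃ᶠ m in atTop, S n m x < -(ξ : ℝ) :=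
    ae_mono hE1 hosc
  have hmem : ∀ᵐ x ∂(volume.restrict E), x ∈ E := ae_restrict_mem hEm
  have hfalse : ∀ᵐ x ∂(volume.restrict E), False := by
    filter_upwards [hdens, hosc', hmem] with x hx1 hx2 hx3
    obtain ⟨N, hN⟩ := exists_nat_gt |ξ|
    have a1 : ∃ᶠ m in atTop, ξ < S n m x :=
      (hx2 N).1.mono fun m hm => (le_abs_self ξ).trans_lt (hN.trans hm)
    have a2 : ∃ᶠ m in atTop, S n m x < ξ :=
      (hx2 N).2.mono fun m hm => hm.trans (by linarith [neg_abs_le ξ])
    have a3 := (crossing a1 a2).and_eventually (eventually_ge_atTop M)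
    obtain ⟨k, hk, hk'⟩ := Filter.extraction_of_frequently_atTop a3
    -- the centres and radii
    have hhit : ∀ i, ∃ y, ∃ m', (m' = k i ∨ m' = k i + 1) ∧ x ≤ y ∧
        y ≤ x + 2 * Real.pi / n (k i) ∧ S n m' y = ξ := fun i => hit h (hk' i).1.1 (hk' i).1.2
    choose w m' hm' hw1 hw2 hw3 using hhit
    set δ : ℕ → ℝ := fun i => ε / (2 * L * n (k i)) with hδ
    have hnpos : ∀ i, (0 : ℝ) < n (k i) := fun i => by exact_mod_cast h.pos (k i)
    have hδ0 : ∀ i, 0 < δ i := fun i => by
      have := hnpos i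
      simp only [hδ]
      positivity
    have hlim : Tendsto δ atTop (𝓝[>] 0) := by
      rw [tendsto_nhdsWithin_iff]
      refine ⟨?_, Eventually.of_forall fun i => hδ0 i⟩
      simp only [hδ]
      have t1 : Tendsto (fun i => (n (k i) : ℝ)) atTop atTop :=
        tendsto_natCast_atTop_atTop.comp (h.strictMono.tendsto_atTop.comp hk.tendsto_atTop)
      exact Tendsto.div_atTop tendsto_const_nhds (t1.const_mul_atTop (by positivity))
    have hball : ∀ᶠ i in atTop, x ∈ Metric.closedBall (w i) (K * δ i) := by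
      refine Eventually.of_forall fun i => ?_
      rw [Metric.mem_closedBall, Real.dist_eq, abs_sub_comm, abs_of_nonneg (by linarith [hw1 i])]
      have e1 : K * δ i = 2 * Real.pi / n (k i) := by
        simp only [hδ, hK]
        have := (hnpos i).ne'
        field_simp
        ring
      rw [e1]
      linarith [hw2 i]
    have hconv := hx1 w δ hlim hball
    have hzero : ∀ i, volume (E ∩ Metric.closedBall (w i) (δ i)) /
        volume (Metric.closedBall (w i) (δ i)) = 0 := by
      intro i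
      have : E ∩ Metric.closedBall (w i) (δ i) = ∅ := by
        rw [Set.eq_empty_iff_forall_notMem]
        rintro z ⟨hz1, hz2⟩
        rw [Metric.mem_closedBall, Real.dist_eq] at hz2
        have hMm : M ≤ m' i := by
          have := (hk' i).2
          rcases hm' i with e | e <;> omega
        have b1 := hz1.2 (m' i) hMm
        have b2 := S_lip h (k i) (m' i) (by rcases hm' i with e | e <;> omega) z (w i)
        rw [hw3 i] at b2
        have b3 : q / (q - 1) * (n (k i) : ℝ) * |z - w i| ≤ ε / 2 := by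
          have c1 : q / (q - 1) * (n (k i) : ℝ) * |z - w i| ≤ L * n (k i) * δ i := by
            apply mul_le_mul_of_nonneg_left hz2
            have := hnpos i
            positivity
          have c2 : L * n (k i) * δ i = ε / 2 := by
            simp only [hδ]
            have := (hnpos i).ne'
            field_simp
          linarith
        linarith
      rw [this]
      simp
    simp only [hzero] at hconv
    have := tendsto_nhds_unique hconv tendsto_const_nhds
    exact zero_ne_one this.symm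
  have : volume.restrict E = 0 := by
    rw [← ae_eq_bot]
    exact Filter.eventually_false_iff_eq_bot.1 hfalse
  exact Measure.restrict_eq_zero.1 this

/-- almost every `x` has all reals as cluster values -/
theorem ae_dense (h : Gap n q) : ∀ᵐ x ∂(volume : Measure ℝ),
    x ∈ Set.Icc (0 : ℝ) (2 * Real.pi) → ∀ ξ : ℝ, ∀ ε : ℝ, 0 < ε →
      ∃ᶠ m in atTop, |S n m x - ξ| < ε := by
  have h1 : ∀ (r : ℚ) (j M : ℕ), ∀ᵐ x ∂(volume : Measure ℝ),
      x ∈ Set.Icc (0 : ℝ) (2 * Real.pi) → ∃ m, M ≤ m ∧ |S n m x - r| < 1 / ((j : ℝ) + 1) := by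
    intro r j M
    have := ae_close h (r : ℝ) (ε := 1 / ((j : ℝ) + 1)) (by positivity) M
    rw [ae_iff]
    refine measure_mono_null ?_ this
    intro x hx
    simp only [Set.mem_ofPred_eq] at hx ⊢
    push Not at hx
    exact hx
  have h2 : ∀ᵐ x ∂(volume : Measure ℝ), ∀ (r : ℚ) (j M : ℕ),
      x ∈ Set.Icc (0 : ℝ) (2 * Real.pi) → ∃ m, M ≤ m ∧ |S n m x - r| < 1 / ((j : ℝ) + 1) := by
    simp only [ae_all_iff]
    exact h1
  filter_upwards [h2] with x hx hxI ξ ε hε
  obtain ⟨j, hj⟩ := exists_nat_one_div_lt (half_pos hε)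
  obtain ⟨r, hr1, hr2⟩ := exists_rat_btwn (show ξ < ξ + ε / 2 by linarith)
  rw [frequently_atTop]
  intro M
  obtain ⟨m, hm1, hm2⟩ := hx r j M hxI
  refine ⟨m, hm1, ?_⟩
  have e1 : |(r : ℝ) - ξ| < ε / 2 := by
    rw [abs_lt]
    constructor <;> linarith
  calc |S n m x - ξ| = |(S n m x - r) + (r - ξ)| := by ring_nf
    _ ≤ |S n m x - r| + |(r : ℝ) - ξ| := abs_add_le _ _
    _ < ε := by linarith

end Run7.h439.Lac
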